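import Pool.Agent.Helper77.Z2.Lit
import Pool.Agent.Helper62.FST.St
import Pool.Agent.Helper39.FST.Zm
import Pool.Agent.Helper71.VIS.Trx
import Pool.Agent.Helper84.SEL.Numx
import Pool.Agent.Helper5.FN3.N3
import Pool.Agent.Helper80.FST.Row4
import Pool.Agent.Helper10.FST.Clz
import Pool.Agent.Helper56.IMZ.Imz

/-! ROW Z2 of `Helper62/FST/St`: the zooms of members of linear classes are deficient on all events. -/

set_option autoImplicit false

namespace Pool.Agent.Helper77.Z2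

open Finset Filter Topology Matrix Pool.Agent.Helper69.RK Pool.Agent.Helper31.EC Pool.Agent.Helper31.EC.Sp
open Pool.Agent.Helper40.EL Pool.Agent.Helper89.LX Pool.Agent.Helper84.MT
open Pool.Agent.Helper49.MD Pool.Agent.Helper36.AM
open Pool.Agent.Helper7.RD (RW)
open Pool.Agent.Helper29.MX
open Pool.Agent.Helper15.FST (Zst)
open Pool.Agent.Helper94.SEL (tot num lmd BK)
open Pool.Agent.Helper62.FST

noncomputable section

variable {S : Sp} {M : ℕ}

/-- literal type-labels which agree eventually -/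
theorem tlb_congr {N : ℕ} {E : ℕ → ℕ} {ι : Type} {s : MSys S N E ι} {c : ℝ} {V V' : Rsl S}
    (h : ∀ᶠ k in UF, V k = V' k) (hV : TLb s c (Lab.ofZ V)) : TLb s c (Lab.ofZ V') := by
  intro i
  have h1 : Nul S fun k => ((Lab.ofZ V) k).leak ((s.lf i).win c k) := hV i
  have h2 : Tendsto (fun k => ((Lab.ofZ V) k).leak ((s.lf i).win c k) / (S.F k).n) UF (𝓝 0) := h1
  show Tendsto (fun k => ((Lab.ofZ V') k).leak ((s.lf i).win c k) / (S.F k).n) UF (𝓝 0)
  refine h2.congr' ?_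
  filter_upwards [h] with k hk
  have e : (Lab.ofZ V) k = (Lab.ofZ V') k := by
    show (⟨(FLab.triv (S.F k)).T, (FLab.triv (S.F k)).p, (FLab.triv (S.F k)).hn, V k⟩ : FLab (S.F k)) =
      ⟨(FLab.triv (S.F k)).T, (FLab.triv (S.F k)).p, (FLab.triv (S.F k)).hn, V' k⟩
    rw [hk]
  rw [e]

/-- a literal type-label of the window `b` with the entropy of the cells of the level `G` allowed by the hull, if the
total exponent is less than `G` on all events -/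
theorem trn_vol {κ r : ℕ} (t : MSys S (M + 1) (lin κ) (Fin r)) {G b : ℝ} (hG : 0 < G) (hG1 : G ≤ 1) (hb0 : 0 ≤ b)
    (hbG : b ≤ G) (ht : tot t (rbot S) b < G)
    (hrig : AllE (fun _ t' R' => ∀ (j : ℕ) (hj : j ≤ M + 1), num t' R' hj b = num t (rbot S) hj b) S t (rbot S)) :
    ∃ V : Rsl S, TLb t b (Lab.ofZ V) ∧ H (up1 (Lab.ofZ V) (t.Q.dg G)) ≤ (M + 1) * G - tot t (rbot S) b := by
  obtain ⟨x, hx⟩ : ∃ x, x = b / G := ⟨_, rfl⟩
  have hGx : G * x = b := by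
    rw [hx]
    field_simp
  have hx0 : 0 ≤ x := by
    rw [hx]
    exact div_nonneg hb0 hG.le
  have hx1 : x ≤ 1 := by
    rw [hx]
    exact (div_le_one hG).2 hbG
  have hN := Pool.Agent.Helper84.SEL.numx M
  have h4 : num (S := S.chg S.tr G hG) (t.trn G hG hG1) (rbot S) le_rfl x = num t (rbot S) le_rfl (G * x) / G :=
    Pool.Agent.Helper71.VIS.num_trn hN t (rbot S) (Pool.Agent.Helper37.FST.pt_bot t) hG hG1 hx0 hx1
      (by rwa [hGx]) (by rwa [hGx]) (M + 1) le_rfl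
  have h5 : tot (S := S.chg S.tr G hG) (t.trn G hG hG1) (rbot S) x = tot t (rbot S) b / G := by
    have e1 : num (S := S.chg S.tr G hG) (t.trn G hG hG1) (rbot S) le_rfl x =
        tot (S := S.chg S.tr G hG) (t.trn G hG hG1) (rbot S) x := hN.last _ _ _ _ _ _
    have e2 : num t (rbot S) le_rfl (G * x) = tot t (rbot S) (G * x) := hN.last _ _ _ _ _ _
    rw [e2, hGx] at h4
    exact e1.symm.trans h4
  obtain ⟨V, hV1, hV2⟩ := lit_vol (S := S.chg S.tr G hG) (t.trn G hG hG1) x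
  have h6 := H_trn_lit t hG hG1 V 1
  rw [mul_one] at h6
  refine ⟨V, ?_, ?_⟩
  · rw [← tlb_iff]
    have h8 := (Pool.Agent.Helper4.FRK.klb_trn (s := t) (R := rbot S) (a := G) (h0 := hG) (h1 := hG1)
      (b := x) (W := V)).1 hV1
    rwa [hGx] at h8
  · rw [← h6]
    refine (mul_le_mul_of_nonneg_left hV2 hG.le).trans ?_
    have h8 : volKO (S := S.chg S.tr G hG) (t.trn G hG hG1) (rbot _) x = ((M + 1 : ℕ) : ℝ) - tot t (rbot S) b / G := by
      rw [← h5]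
      exact (sub_sub_cancel _ _).symm
    rw [h8, mul_sub, mul_div_cancel₀ _ hG.ne']
    push_cast
    linarith

/-- THE DEFICIT OF ONE ZOOM at the level `G` -/
theorem key {C : ℕ → MCl (M + 1)} {m v g κ r e0 : ℕ} {q w0 c u δ U a : ℝ}
    {s : MSys S (M + 1) (lin g) (Fin r)} (Z : Zst s κ c a u U) (hq : 0 ≤ q) (hw : 1 ≤ w0)
    (hu : u = (1 - w0 * c) / 2) (hδ : 0 ≤ δ)
    (hbk : BK (C m) v κ r e0 ((1 - 2 * δ) / w0) _ Z.t (rbot _))
    (ht : ∀ b : ℝ, 0 ≤ b → b < (1 - 2 * δ) / w0 → |tot Z.t (rbot _) b - w0 * b| ≤ 2 * δ) {W₀ : Rsl S}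
    (hW : ∀ᶠ k in UF, Z.W k ≤ W₀ k)
    (hinf : ∀ b' : ℝ, c ≤ b' → w0 * b' < 1 - u * δ → ∀ V : Rsl S, (∀ k, V k ≤ W₀ k) → TLb s b' (Lab.ofZ V) →
      H (up1 (Lab.ofZ W₀) (s.Q.dg 1)) - H (up1 (Lab.ofZ V) (s.Q.dg 1)) ≤ q * w0 * (b' - c) + u * δ) (G : ℝ)
    (hG0 : 0 ≤ G) (hG1 : G ≤ 1) : H (Z.t.Q.dg G) ≤ (M + q) * G + 6 * δ := by
  have hu0 := Z.hu
  have hc0 := Z.h0
  have hw0 : 0 < w0 := by linarith
  have htriv : H (Z.t.Q.dg G) ≤ ((M + 1 : ℕ) : ℝ) * G := VV.H_dg_le Z.t.Q hG0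
  push_cast at htriv
  have hqG : 0 ≤ q * G := mul_nonneg hq hG0
  rcases le_or_gt G (3 * δ) with h3 | h3
  · nlinarith
  refine le_of_forall_pos_le_add fun η₀ hη₀ => ?_
  obtain ⟨η, hη⟩ : ∃ η, η = min η₀ ((G - 3 * δ) / 2) := ⟨_, rfl⟩
  have hη0 : 0 < η := by
    rw [hη]
    exact lt_min hη₀ (by linarith)
  have hη1 : η ≤ η₀ := by
    rw [hη]
    exact min_le_left _ _
  have hη2 : η ≤ (G - 3 * δ) / 2 := by
    rw [hη]
    exact min_le_right _ _
  obtain ⟨b, hb⟩ : ∃ b, b = (G - 3 * δ - η) / w0 := ⟨_, rfl⟩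
  have hwb : w0 * b = G - 3 * δ - η := by
    rw [hb]
    field_simp
  have hb0 : 0 ≤ b := by
    rw [hb]
    exact div_nonneg (by linarith) hw0.le
  have hbG : b ≤ G := by nlinarith
  have hG : 0 < G := by linarith
  have hb1 : b < (1 - 2 * δ) / w0 := by
    rw [hb]
    exact div_lt_div_of_pos_right (by linarith) hw0
  have htb := abs_le.1 (ht b hb0 hb1)
  obtain ⟨V, hVt, hV2⟩ := trn_vol Z.t hG hG1 hb0 hbG (by linarith)
    (Pool.Agent.Helper71.VIS.rig_all hbk hb0 hb1)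
  have h7 : H (up1 (Lab.ofZ (S := (Lab.ofZ Z.W).ovr u Z.hu) V) (Z.t.Q.dg G)) ≤ M * G + 5 * δ + η := by
    refine hV2.trans ?_
    linarith
  have hb1' : b ≤ 1 := hbG.trans hG1
  obtain ⟨h9, -⟩ := Pool.Agent.Helper5.FN3.row_n3 S (M + 1) g r κ s c a u U Z b hb0 hb1' _ hVt
  obtain ⟨h10, -⟩ := Pool.Agent.Helper80.FST.row_n4 S (M + 1) g r κ s c a u U Z G hG hG1
  have h11 := h10 (Lab.ofZ (S := (Lab.ofZ Z.W).ovr u Z.hu) V)
  obtain ⟨h12, h13⟩ := Pool.Agent.Helper10.FST.row_clz S (M + 1) g r κ s c a u U Z V 1 (c + u * b)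
  rw [h12] at h11
  have h14 := h13 h9
  -- the label below `W₀`
  have h15 : TLb s (c + u * b) (Lab.ofZ fun k => (Z.W k ⊓ V k) ⊓ W₀ k) := by
    refine tlb_congr ?_ h14
    filter_upwards [hW] with k hk
    exact (inf_eq_left.2 (inf_le_left.trans hk)).symm
  have hub : 0 ≤ u * b := mul_nonneg hu0.le hb0
  have h16 := hinf (c + u * b) (by linarith) (by
      have e1 : w0 * (c + u * b) = w0 * c + u * (w0 * b) := by ring
      have e2 : w0 * c = 1 - 2 * u := by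
        rw [hu]
        ring
      have e3 : u * (w0 * b) ≤ u * (1 - 3 * δ - η) := mul_le_mul_of_nonneg_left (by linarith) hu0.le
      have e4 : 0 < u * η := mul_pos hu0 hη0
      have e5 : 0 ≤ u * δ := mul_nonneg hu0.le hδ
      rw [e1, e2]
      nlinarith) _ (fun k => inf_le_right) h15
  have h17 : H (up1 (Lab.ofZ Z.W) (s.Q.dg 1)) ≤ H (up1 (Lab.ofZ W₀) (s.Q.dg 1)) :=
    Pool.Agent.Helper84.KR.H_ofZ_anti hW _
  have h18 : H (up1 (Lab.ofZ fun k => (Z.W k ⊓ V k) ⊓ W₀ k) (s.Q.dg 1)) ≤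
      H (up1 (Lab.ofZ fun k => Z.W k ⊓ V k) (s.Q.dg 1)) :=
    Pool.Agent.Helper84.KR.H_ofZ_anti (Eventually.of_forall fun k => inf_le_left) _
  have h19 : u * (H (Z.t.Q.dg G) - H (up1 (Lab.ofZ (S := (Lab.ofZ Z.W).ovr u Z.hu) V) (Z.t.Q.dg G))) ≤
      u * (q * G + δ) := by
    refine h11.trans ?_
    have e1 : q * w0 * (c + u * b - c) + u * δ = u * (q * (w0 * b) + δ) := by ring
    rw [e1, hwb] at h16
    have e2 : u * (q * (G - 3 * δ - η) + δ) ≤ u * (q * G + δ) := by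
      refine mul_le_mul_of_nonneg_left ?_ hu0.le
      have := mul_le_mul_of_nonneg_left (show G - 3 * δ - η ≤ G by linarith) hq
      linarith
    linarith
  have h20 := le_of_mul_le_mul_left h19 hu0
  linarith

/-- **[Z2]** -/
theorem row_z2 (M : ℕ) : ROW_Z2 M := by
  intro A C _ hC hst v _ m g r e0 q w0 c hg hr hq hq1 hw hc hwc
  have hu0 : 0 < zun w0 c := by
    unfold zun
    linarith
  refine ⟨6 / zun w0 c, by positivity, fun κ D1 ε hκ hε hε4 S s hbk htot W₀ hinf z W h => ?_⟩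
  obtain ⟨δ, hδ⟩ : ∃ δ, δ = ε / zun w0 c := ⟨_, rfl⟩
  have hεδ : ε = zun w0 c * δ := by
    rw [hδ]
    field_simp
  have hδ0 : 0 ≤ δ := by
    rw [hδ]
    exact div_nonneg hε hu0.le
  have hK : 6 / zun w0 c * ε = 6 * δ := by
    rw [hδ]
    ring
  have hb1 : 1 - 2 * ε / zun w0 c = 1 - 2 * δ := by
    rw [hδ]
    ring
  have hcw : c ≤ w0 * c := le_mul_of_one_le_left hc.le hw
  have hca : c ≤ 1 - zun w0 c := by
    unfold zun
    linarith
  have hbk' := h.bk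
  have hnum' := h.num
  rw [hb1] at hbk' hnum'
  by_contra hneg
  obtain ⟨Z, hZW, hZP⟩ := Pool.Agent.Helper37.FST.exists_zst (κ := z.κ) z h.zl h.zc h.zu rfl h.klb h.flg h.opt h.tam
    hca (by linarith) rfl
  have hnu : zun w0 c * ((1 - 2 * δ) / w0) ≤ zun w0 c := by
    refine mul_le_of_le_one_right hu0.le ?_
    rw [div_le_one (by linarith)]
    linarith
  have hP := hZP (fun S' κ' t R => (BK (C m) v κ' r e0 ((1 - 2 * δ) / w0) S' t R ∧
      ∀ b : ℝ, 0 ≤ b → b < (1 - 2 * δ) / w0 → |tot t R b - w0 * b| ≤ 2 * δ) ∧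
      ¬ ∀ (T : Sp) (p : Pj T S') (A : ∀ k, (T.F k).Ω → Prop) (hA : 0 < ul (T.pr A)) (b : ℝ), 0 ≤ b → b ≤ 1 →
        H ((t.im p A hA).Q.dg b) ≤ (M + q) * b + 6 / zun w0 c * ε) ⟨⟨hbk', fun b h0 h1 => ?_⟩, hneg⟩
  · obtain ⟨⟨hbk1, ht1⟩, hneg1⟩ := hP
    refine hneg1 fun T p B hB G hG0 hG1 => ?_
    obtain ⟨T', p', B', hB', Z', e1, hW'⟩ := Pool.Agent.Helper56.IMZ.row_imz S (M + 1) g r z.κ s c _ _ _ Z T p B hB
    have h5 : BK (C m) v z.κ r e0 ((1 - 2 * δ) / w0) (Sp.im p B) (Z.t.im p B hB) (rbot _) :=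
      Pool.Agent.Helper71.VIS.bk_im hC hbk1 p B hB
    have h6 : ∀ b : ℝ, 0 ≤ b → b < (1 - 2 * δ) / w0 → |tot (Z.t.im p B hB) (rbot _) b - w0 * b| ≤ 2 * δ := by
      intro b h0 h1
      have h7 := hbk1.rig T p B hB b h0 h1 (M + 1) le_rfl
      have h8 : tot (Z.t.im p B hB) (rbot _) b = tot Z.t (rbot _) b := by
        have e2 := (Pool.Agent.Helper84.SEL.numx M).last _ _ _ (Z.t.im p B hB) (rbot _) b
        have e3 := (Pool.Agent.Helper84.SEL.numx M).last _ _ _ Z.t (rbot _) b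
        exact e2.symm.trans (h7.trans e3)
      rw [h8]
      exact ht1 b h0 h1
    obtain ⟨h9, h10⟩ := Pool.Agent.Helper39.FST.sig_pred (fun S' (t : MSys S' (M + 1) (lin z.κ) (Fin r)) =>
      BK (C m) v z.κ r e0 ((1 - 2 * δ) / w0) S' t (rbot S') ∧
        ∀ b : ℝ, 0 ≤ b → b < (1 - 2 * δ) / w0 → |tot t (rbot S') b - w0 * b| ≤ 2 * δ) e1.symm ⟨h5, h6⟩
    rw [hK]
    refine Pool.Agent.Helper39.FST.sig_pred (fun S' (t : MSys S' (M + 1) (lin z.κ) (Fin r)) =>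
      H (t.Q.dg G) ≤ (M + q) * G + 6 * δ) e1 ?_
    refine key (C := C) Z' hq hw rfl hδ0 h9 h10 (W₀ := W₀) ?_ ?_ G hG0 hG1
    · filter_upwards [h.le] with k hk
      rw [hW' k, hZW]
      exact hk
    · intro b' hb' hb2 V hV hT
      rw [← hεδ] at hb2 ⊢
      exact hinf b' hb' hb2 T' p' B' hB' V hV hT
  · have h2 := hnum' b h0 h1 (M + 1) le_rfl
    have hN := Pool.Agent.Helper84.SEL.numx M
    rw [hN.last S _ _ s, hN.last S _ _ s] at h2
    have h3 := (hN.last _ _ _ z.sys (rover z.Z.l z.Z.u z.Z.hu (rbot S)) b).symm.trans h2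
    rw [h3]
    have hub : 0 ≤ zun w0 c * b := mul_nonneg hu0.le h0
    have hwu : w0 * (zun w0 c * b) ≤ zun w0 c * (1 - 2 * δ) := by
      have e1 : w0 * (zun w0 c * b) = zun w0 c * (w0 * b) := by ring
      rw [e1]
      refine mul_le_mul_of_nonneg_left ?_ hu0.le
      have e2 := (lt_div_iff₀ (show 0 < w0 by linarith)).1 h1
      linarith
    have e3 : w0 * c = 1 - 2 * zun w0 c := by
      unfold zun
      ring
    have h4 := abs_le.1 (htot (c + zun w0 c * b) (by linarith) (by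
      rw [mul_add, e3, hεδ]
      nlinarith))
    have h5 := abs_le.1 (htot c hc.le (by
      rw [e3, hεδ]
      rw [hεδ] at hε4
      nlinarith))
    have e4 : (tot s (rbot S) (c + zun w0 c * b) - tot s (rbot S) c) / zun w0 c - w0 * b =
        (tot s (rbot S) (c + zun w0 c * b) - tot s (rbot S) c - w0 * (zun w0 c * b)) / zun w0 c := by
      field_simp
    rw [e4, abs_le, le_div_iff₀ hu0, div_le_iff₀ hu0]
    rw [hεδ] at h4 h5
    constructor
    · nlinarith [h4.1, h5.2]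
    · nlinarith [h4.2, h5.1]

end

end Pool.Agent.Helper77.Z2
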