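import Pool.Agent.Helper62.FST.Fl
import Pool.Agent.Helper71.VIS.Trx
import Pool.Agent.Helper3.ENT.Ent

/-! ROW FLI of `Helper62/FST/Fl`: the class `FL` on events of extensions. -/

set_option autoImplicit false

namespace Pool.Agent.Helper77.Z2

open Finset Filter Topology Matrix Pool.Agent.Helper69.RK Pool.Agent.Helper31.EC Pool.Agent.Helper31.EC.Sp
open Pool.Agent.Helper40.EL Pool.Agent.Helper89.LX Pool.Agent.Helper84.MT
open Pool.Agent.Helper49.MD Pool.Agent.Helper36.AM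
open Pool.Agent.Helper81.CPY (pjb chP zim chP_im)
open Pool.Agent.Helper52.MW (AllE_im)
open Pool.Agent.Helper29.MX
open Pool.Agent.Helper62.FST

noncomputable section

variable {S T : Sp} {M : ℕ}

/-- the windows of limits of zooms on events of extensions -/
theorem win_im {N : ℕ} {E E' : ℕ → ℕ} {ι : Type} {s : MSys S N E ι} {W : Rsl S} {u : ℝ} {hu : 0 < u}
    {t : MSys ((Lab.ofZ W).ovr u hu) N E' ι} {b c : ℝ} {i : ι}
    (h : PLe ((t.lf i).win b) (chP W u hu ((s.lf i).win c))) (p : Pj T S) (B : ∀ k, (T.F k).Ω → Prop)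
    (hB : 0 < ul (T.pr B)) : PLe (((zim p B hB t).lf i).win b)
      (chP (S := Sp.im p B) W u hu (((s.im p B hB).lf i).win c)) := by
  rw [Pool.Agent.Helper81.CPY.win_chP] at h
  have e1 : ((s.im p B hB).lf i).win c = ((s.lf i).win c).im p B := rfl
  rw [e1, Pool.Agent.Helper81.CPY.zim_win]
  exact chP_im p B hB h

/-- limits of zooms on events of extensions -/
theorem zl_im {A : MCl (M + 1)} {C : ℕ → MCl (M + 1)} (hok : Okc (M + 1) A C) {m v κ D1 g r : ℕ} {q c u φ Λ ε : ℝ}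
    {s : MSys S (M + 1) (lin g) (Fin r)} {W : Rsl S} {hu : 0 < u} {t : MSys (S.chg W u hu) (M + 1) (lin κ) (Fin r)}
    {P : ∀ k, (S.F k).Ω → Fin (M + 1) → MvPolynomial (Fin (M + 1)) ℝ} {lam : Fin (M + 1) → ℝ}
    (h : ZL (C m) v q c u φ κ D1 Λ ε s W hu t P lam) (p : Pj T S) (B : ∀ k, (T.F k).Ω → Prop)
    (hB : 0 < ul (T.pr B)) : ZL (C m) v q c u φ κ D1 Λ ε (s.im p B hB) W hu (zim p B hB t) P lam := by
  have h1 := h.zs.im p B hB
  have h2 := hok.im m _ _ _ _ h.cl _ (pjb p W u hu) B hB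
  have h3 := Pool.Agent.Helper3.ENT.inv_im h.inv (pjb p W u hu) B hB
  have h4 := AllE_im h.dfc (pjb p W u hu) B hB
  exact ⟨h1, h.lb, h.sum, h2, h3, fun b b0 b1 i => win_im (h.win b b0 b1 i) p B hB, h4⟩

/-- **[FLI]** -/
theorem row_fli (M : ℕ) : ROW_FLI M := by
  intro A C hok m v g r e0 q w0 κ D1 δ K ε S s h T p B hB
  exact {
    cl := ⟨hok.im m _ _ _ _ h.cl.1 T p B hB, Pool.Agent.Helper71.VIS.pt_im h.cl.2.1 p B hB, h.cl.2.2.1, fun i => by
      exact Pool.Agent.Helper8.CPY.AlE.im (P := fun S s => Pool.Agent.Helper8.CPY.UdP v i S s) (h.cl.2.2.2 i) p B hB⟩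
    dim := h.dim
    pol := Pool.Agent.Helper26.OUT.WDs.im (fun _ => Nat.cast_nonneg g) h.pol p B hB
    tot := AllE_im h.tot p B hB
    dfc := AllE_im h.dfc p B hB
    zm := fun c h0 h1 h2 => by
      obtain ⟨W, hu, t, P, lam, hz⟩ := h.zm c h0 h1 h2
      exact ⟨W, hu, _, P, lam, zl_im hok hz p B hB⟩ }

end

end Pool.Agent.Helper77.Z2
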