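import Pool.Agent.Helper37.FST.Zc
import Pool.Agent.Helper4.FRK.Low
import Pool.Agent.Helper69.FST.Lev
import Pool.Agent.Helper13.FST.Kc

/-! ROW Z2 of `Helper62/FST/St`, part 1: literal K-labels with the entropy of the hull, also of truncations. -/

set_option autoImplicit false

namespace Pool.Agent.Helper77.Z2

open Finset Filter Topology Matrix Pool.Agent.Helper69.RK Pool.Agent.Helper31.EC Pool.Agent.Helper31.EC.Sp
open Pool.Agent.Helper40.EL Pool.Agent.Helper89.LX Pool.Agent.Helper3.LF Pool.Agent.Helper84.MT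
open Pool.Agent.Helper87.NSL (cndR KnS)
open Pool.Agent.Helper7.RD (volC volCO volC_eq)
open Pool.Agent.Helper85.FRG (scw_cndR)
open Pool.Agent.Helper29.MX
open Pool.Agent.Helper13.FST (gW H_gW)

noncomputable section

variable {S : Sp} {N : ℕ} {E : ℕ → ℕ} {ι : Type}

/-- a literal type-label with at most the entropy of the hull -/
theorem lit_vol [Finite ι] (s : MSys S N E ι) (c : ℝ) : ∃ V : Rsl S, KLb s (rbot S) c (Lab.ofZ V) ∧
    H (up1 (Lab.ofZ V) (s.Q.dg 1)) ≤ volKO s (rbot S) c := by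
  obtain ⟨V, -, hV⟩ := Pool.Agent.Helper4.FRK.exists_car_le (s := s) (R := rbot S)
    (Pool.Agent.Helper37.FST.pt_bot s) (Pool.Agent.Helper4.FRK.klb_top s (rbot S) c)
  have key : ∀ D, ∃ x : ∀ k, FD (S.F k) (Mon N D), (∀ k, (x k).l = Lab.ofZ V k) ∧
      (gaq s.Q D).OptfK (KZ (rbot S)) (cndR s (rbot S) c) x := by
    intro D
    obtain ⟨x, h1, h2⟩ := hV D
    rw [scw_cndR] at h2
    exact ⟨x, h1, h2⟩
  refine ⟨V, ?_, ?_⟩
  · obtain ⟨x, h1, h2⟩ := key 0
    rw [tlb_iff]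
    have hd : Lab.DMf (lb x) (cndR s (rbot S) c) := h2.1.1.dm
    have e : lb x = Lab.ofZ V := funext h1
    rw [e] at hd
    exact fun i => hd (some i)
  · refine le_of_forall_pos_le_add fun ε hε => ?_
    have h1 : volCO (KZ (rbot S)) (cndR s (rbot S) c) s.Q < volKO s (rbot S) c + ε := by
      rw [← volKO_eq]
      exact lt_add_of_pos_right _ hε
    obtain ⟨D₀, hD⟩ := Pool.Agent.Helper84.KR.volCO_lt h1
    obtain ⟨x, hx1, hx⟩ := key (D₀ + 1)
    have h2 := hD (D₀ + 1) (Nat.le_succ _)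
    rw [volC_eq hx] at h2
    have h3 := Pool.Agent.Helper14.MC.cnt_vol s.Q (Nat.le_add_left 1 D₀) x hx.1.1
    have e : lb x = Lab.ofZ V := funext hx1
    rw [e] at h3
    linarith

/-- entropies of the cells over literal labels of truncations -/
theorem H_trn_lit (s : MSys S N E ι) {a : ℝ} (h0 : 0 < a) (h1 : a ≤ 1) (V : Rsl S) (e : ℝ) :
    a * H (up1 (Lab.ofZ (S := S.chg S.tr a h0) V) ((s.trn a h0 h1).Q.dg e)) =
      H (up1 (Lab.ofZ V) (s.Q.dg (a * e))) := by
  have e0 : H (up1 (Lab.ofZ (S := S.chg S.tr a h0) V) ((s.trn a h0 h1).Q.dg e)) =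
      ul (gW (S := S.chg S.tr a h0) (s.trn a h0 h1).Q V e) := H_gW (S := S.chg S.tr a h0) (s.trn a h0 h1).Q V e
  rw [e0, H_gW]
  have e1 : gW (S := S.chg S.tr a h0) (s.trn a h0 h1).Q V e = fun k => a⁻¹ * gW s.Q V (a * e) k := by
    funext k
    have h2 : Pool.Agent.Helper31.EC.h (pcr (S := S.chg S.tr a h0) (s.trn a h0 h1).Q e k)
        (fc (F := (S.chg S.tr a h0).F k) (V k)) =
        Pool.Agent.Helper31.EC.h (pcr s.Q (a * e) k) (fc (V k)) := by
      have h3 : ((s.trn a h0 h1).Q).cellv e k = s.Q.cellv (a * e) k :=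
        Pool.Agent.Helper52.SL.cellv_chg s.Q a h0 e k
      have h4 : pcr (S := S.chg S.tr a h0) (s.trn a h0 h1).Q e k =
          fc (F := (S.F k).chg ⊤ a h0) (Setoid.ker (s.Q.cellv (a * e) k)) := by
        show fc (F := (S.F k).chg ⊤ a h0) (Setoid.ker (((s.trn a h0 h1).Q).cellv e k)) = _
        rw [h3]
      rw [h4]
      exact Pool.Agent.Helper4.FRK.h_trn a h0 (Setoid.ker (s.Q.cellv (a * e) k)) (V k)
    have h5 : gW (S := S.chg S.tr a h0) (s.trn a h0 h1).Q V e k =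
        Pool.Agent.Helper31.EC.h (pcr (S := S.chg S.tr a h0) (s.trn a h0 h1).Q e k)
          (fc (F := (S.chg S.tr a h0).F k) (V k)) / (a * (S.F k).n) := rfl
    rw [h5, h2]
    unfold gW
    have := (S.F k).pos.ne'
    field_simp
  rw [e1, ul_const_mul a⁻¹ (Pool.Agent.Helper13.FST.gW_UB s.Q V (a * e)), ← mul_assoc, mul_inv_cancel₀ h0.ne', one_mul]

end

end Pool.Agent.Helper77.Z2
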